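import Mathlib
import Pool.Agent.Lib.MP_c93b6d_al.Defs
import Pool.Agent.Lib.MP_c93b6d_al.OpenSub

namespace Pool.Agent.Results.MP_c93b6d_al.FamilyGroups

open C93

universe u v

/-- For every locally compact abelian group `X` and every index set `I`, the groups of all null
families, of all families with precompact range, and of all families of elements of `X`, with the
uniform topology, are Pontryagin reflexive. -/
theorem result (X : Type u) [CommGroup X] [TopologicalSpace X] [IsTopologicalGroup X]
    [LocallyCompactSpace X] [T2Space X] (I : Type v) :
    Reflexive (cZero I X) ∧ Reflexive (lInf I X) ∧ Reflexive (Fam I X) :=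
  ⟨reflexive_cZero, reflexive_lInf, reflexive_fam⟩

end Pool.Agent.Results.MP_c93b6d_al.FamilyGroups
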